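import Pool.Agent.H55.Cos.Stmts

/-!
DEC: the fine topology is a union of a zero-dimensional set and countably many zero-dimensional
closed sets.
-/

set_option warn.classDefReducibility false

namespace Pool.Agent.H55.Cos

open Set Filter Topology

theorem tp_inter (Z : Type) (T : TopologicalSpace Z) (A B : Set Z) (hA : IsOpen A) (hB : IsOpen B) :
    IsOpen (A ∩ B) := hA.inter hB

theorem tp_union (Z : Type) (T : TopologicalSpace Z) (A B : Set Z) (hA : IsOpen A) (hB : IsOpen B) :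
    IsOpen (A ∪ B) := hA.union hB

theorem tp_mem (Z : Type) (T : TopologicalSpace Z) (A : Set Z) (z : Z) (hA : IsOpen A)
    (hz : z ∈ A) : A ∈ 𝓝 z := hA.mem_nhds hz

theorem tp_nhds (Z : Type) (T : TopologicalSpace Z) (A : Set Z) (z : Z) (hA : A ∈ 𝓝 z) :
    ∃ G, G ⊆ A ∧ IsOpen G ∧ z ∈ G := mem_nhds_iff.1 hA

theorem tp_sUnion (Z : Type) (T : TopologicalSpace Z) (s : Set (Set Z)) (h : ∀ G ∈ s, IsOpen G) :
    IsOpen (⋃₀ s) := isOpen_sUnion h

theorem tp_level (Z : Type) (T : TopologicalSpace Z) (f : Z → ℝ) (hf : Continuous f) (c : ℝ) :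
    IsClosed {z | f z = c} := isClosed_eq hf continuous_const

theorem tp_pre (Z : Type) (T : TopologicalSpace Z) (f : Z → ℝ) (hf : Continuous f) (s : Set ℝ)
    (hs : IsOpen s) : IsOpen (f ⁻¹' s) := hs.preimage hf

theorem tp_biInter {ι : Type} (Z : Type) (T : TopologicalSpace Z) (I : Finset ι) (s : ι → Set Z)
    (hs : ∀ i ∈ I, IsOpen (s i)) : IsOpen (⋂ i ∈ I, s i) := isOpen_biInter_finset hs

theorem tp_biUnion {ι : Type} (Z : Type) (T : TopologicalSpace Z) (I : Finset ι) (s : ι → Set Z)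
    (hs : ∀ i ∈ I, IsOpen (s i)) : IsOpen (⋃ i ∈ I, s i) := isOpen_biUnion hs

theorem fine_nhds {Z : Type} [TopologicalSpace Z] (F : ℕ → Z → ℝ) (z : Z) (O : Set Z) :
    O ∈ @nhds Z (fineT F) z ↔ ∃ U ∈ 𝓝 z, ∃ M : ℕ, ∃ δ : ℝ, 0 < δ ∧
      ∀ z' ∈ U, (∀ m ≤ M, |F m z' - F m z| < δ) → z' ∈ O := by
  unfold fineT
  rw [nhds_inf, nhds_iInf]
  simp only [nhds_induced]
  constructor
  · intro h
    rw [Filter.mem_inf_iff] at h
    obtain ⟨U, hU, V, hV, rfl⟩ := h
    rw [Filter.mem_iInf] at hV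
    obtain ⟨I, hI, W, hW, rfl⟩ := hV
    have h1 : ∀ i : I, ∃ δ : ℝ, 0 < δ ∧ ∀ z', |F i z' - F i z| < δ → z' ∈ W i := by
      intro i
      have h2 := hW i
      rw [Filter.mem_comap] at h2
      obtain ⟨t, ht, hs⟩ := h2
      rw [Metric.mem_nhds_iff] at ht
      obtain ⟨δ, hδ, hb⟩ := ht
      refine ⟨δ, hδ, fun z' hz' => hs (hb ?_)⟩
      rw [Metric.mem_ball, Real.dist_eq]
      exact hz'
    choose d hd0 hd using h1
    have : Finite I := hI
    have e2 : ∀ᶠ μ in 𝓝[>] (0 : ℝ), ∀ i : I, μ ≤ d i := by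
      rw [eventually_all]
      intro i
      filter_upwards [Ioc_mem_nhdsGT (hd0 i)] with μ hμ
      exact hμ.2
    obtain ⟨δ, hδ1, hδ0⟩ := (e2.and self_mem_nhdsWithin).exists
    obtain ⟨M, hM⟩ := hI.bddAbove
    refine ⟨U, hU, M, δ, hδ0, fun z' hz' hm => ⟨hz', ?_⟩⟩
    rw [Set.mem_iInter]
    intro i
    refine hd i z' ((hm i (hM i.2)).trans_le (hδ1 i))
  · rintro ⟨U, hU, M, δ, hδ, h⟩
    refine Filter.mem_of_superset (Filter.inter_mem (Filter.mem_inf_of_left hU)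
      (Filter.mem_inf_of_right (s := ⋂ m ∈ Finset.range (M + 1), {z' | |F m z' - F m z| < δ}) ?_)) ?_
    · rw [Filter.biInter_finset_mem]
      intro m _
      refine Filter.mem_iInf_of_mem m ?_
      rw [Filter.mem_comap]
      refine ⟨Metric.ball (F m z) δ, Metric.ball_mem_nhds _ hδ, ?_⟩
      intro z' hz'
      rw [Set.mem_preimage, Metric.mem_ball, Real.dist_eq] at hz'
      exact hz'
    · rintro z' ⟨h1, h2⟩
      refine h z' h1 fun m hm => ?_
      rw [Set.mem_iInter₂] at h2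
      exact h2 m (Finset.mem_range.2 (by omega))

theorem fine_le {Z : Type} [t : TopologicalSpace Z] (F : ℕ → Z → ℝ) : fineT F ≤ t := inf_le_left

theorem fine_cont {Z : Type} [TopologicalSpace Z] (F : ℕ → Z → ℝ) (m : ℕ) :
    @Continuous Z ℝ (fineT F) _ (F m) := by
  rw [continuous_iff_le_induced]
  exact inf_le_right.trans (iInf_le _ m)

theorem cont_tsum' {Z : Type} [TopologicalSpace Z] (F : ℕ → Z → ℝ) (hF : ∀ m, Continuous (F m))
    (a w : ℕ → ℝ) (ha : Summable a) (ha0 : ∀ m, 0 < a m) (hw : ∀ m, |w m| ≤ 2)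
    (hF1 : ∀ m z, |F m z| ≤ 1) :
    Continuous (fun z => ∑' m, w m * a m * F m z) := by
  refine continuous_tsum (u := fun m => 2 * a m) (fun m => continuous_const.mul (hF m))
    (ha.mul_left 2) ?_
  intro m z
  rw [Real.norm_eq_abs, abs_mul, abs_mul, abs_of_pos (ha0 m)]
  have h1 := hF1 m z
  have h2 := hw m
  have h3 := ha0 m
  calc |w m| * a m * |F m z| ≤ |w m| * a m * 1 := by gcongr
    _ ≤ 2 * a m := by rw [mul_one]; gcongr

/-- the weight belonging to an index -/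
noncomputable def wof (l : Option ℕ) (m : ℕ) : ℝ := if l = some m then 2 else 1

theorem wof_abs (l : Option ℕ) (m : ℕ) : |wof l m| ≤ 2 := by
  unfold wof
  split_ifs <;> norm_num

theorem wof_Wt (l : Option ℕ) : Wt (wof l) := by
  cases l with
  | none => left; funext m; simp [wof]
  | some l =>
    right
    refine ⟨l, ?_⟩
    funext m
    simp only [wof, Option.some.injEq]
    simp only [eq_comm]

theorem wof_diff {Z : Type} (F : ℕ → Z → ℝ) (a : ℕ → ℝ) (ha : Summable a) (ha0 : ∀ m, 0 < a m)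
    (hF1 : ∀ m z, |F m z| ≤ 1) (l : ℕ) (z : Z) :
    ∑' m, wof (some l) m * a m * F m z - ∑' m, wof none m * a m * F m z = a l * F l z := by
  have hs : ∀ w : Option ℕ, Summable (fun m => wof w m * a m * F m z) := by
    intro w
    refine Summable.of_norm_bounded (ha.mul_left 2) ?_
    intro m
    rw [Real.norm_eq_abs, abs_mul, abs_mul, abs_of_pos (ha0 m)]
    have h1 := hF1 m z
    have h2 := wof_abs w m
    have h3 := ha0 m
    calc |wof w m| * a m * |F m z| ≤ |wof w m| * a m * 1 := by gcongr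
      _ ≤ 2 * a m := by rw [mul_one]; gcongr
  rw [← (hs (some l)).tsum_sub (hs none), tsum_eq_single l]
  · simp [wof]; ring
  · intro m hm
    have : ¬ l = m := fun h => hm h.symm
    simp [wof, this]

theorem cos_dec (h : WEIStmt) : DECStmt := by
  intro Z tZ hCB F hF hF1
  obtain ⟨a, ha0, hsum, hw⟩ := h Z F hF hF1
  obtain ⟨e, he⟩ := exists_surjective_nat (Option ℕ × ℚ)
  have hcont : ∀ l : Option ℕ, @Continuous Z ℝ (fineT F) _ (fun z => ∑' m, wof l m * a m * F m z) :=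
    fun l => @cont_tsum' Z (fineT F) F (fine_cont F) a (wof l) hsum ha0 (wof_abs l) hF1
  have hcl : ∀ C : Set Z, IsOpen C → @IsOpen Z (fineT F) C := fun C hC => hC.mono (fine_le F)
  refine ⟨fun n => {z | ∑' m, wof (e n).1 m * a m * F m z = ((e n).2 : ℝ)}, ?_, ?_, ?_⟩
  · intro n
    exact tp_level Z (fineT F) _ (hcont _) _
  · intro n z hz O hO hzO
    obtain ⟨U, hU, M, δ, hδ, h1⟩ := (fine_nhds F z O).1 (tp_mem Z (fineT F) O z hO hzO)
    obtain ⟨C, hC, hzC, hCU⟩ := hCB z U hU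
    obtain ⟨N0, hN0⟩ := exists_nat_one_div_lt hδ
    obtain ⟨N', c, hc1, hc2⟩ := hw (wof (e n).1) (wof_Wt _) ((e n).2 : ℝ) (max M N0)
    have hlt : 1 / (((max M N0 : ℕ) : ℝ) + 1) < δ := by
      refine lt_of_le_of_lt ?_ hN0
      have : (N0 : ℝ) ≤ (max M N0 : ℕ) := by exact_mod_cast le_max_right _ _
      gcongr
    have hloc : ∀ z' : Z, ∑' m, wof (e n).1 m * a m * F m z' = ((e n).2 : ℝ) →
        ∃ G, @IsOpen Z (fineT F) G ∧ z' ∈ G ∧ ∀ z'' ∈ G,
          ∑' m, wof (e n).1 m * a m * F m z'' = ((e n).2 : ℝ) → c z'' = c z' := by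
      intro z' hz'
      obtain ⟨O1, hO1, δ1, hδ1, h2⟩ := hc1 z' hz'
      have h3 : {z'' : Z | ∑' m, wof (e n).1 m * a m * F m z'' = ((e n).2 : ℝ) → c z'' = c z'} ∈
          @nhds Z (fineT F) z' := by
        rw [fine_nhds]
        exact ⟨O1, hO1, N', δ1, hδ1, fun z'' hz'' hm hs => h2 z'' hz'' hs hm⟩
      obtain ⟨G, hG1, hG2, hG3⟩ := tp_nhds Z (fineT F) _ z' h3
      exact ⟨G, hG2, hG3, fun z'' hz'' => hG1 hz''⟩
    let A0 : Set Z := ⋃₀ {G | @IsOpen Z (fineT F) G ∧ ∀ z'' ∈ G,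
      ∑' m, wof (e n).1 m * a m * F m z'' = ((e n).2 : ℝ) → c z'' = c z}
    let B0 : Set Z := ⋃₀ {G | @IsOpen Z (fineT F) G ∧ ∀ z'' ∈ G,
      ∑' m, wof (e n).1 m * a m * F m z'' = ((e n).2 : ℝ) → c z'' ≠ c z}
    have hA0 : @IsOpen Z (fineT F) A0 := tp_sUnion Z (fineT F) _ (fun G hG => hG.1)
    have hB0 : @IsOpen Z (fineT F) B0 := tp_sUnion Z (fineT F) _ (fun G hG => hG.1)
    refine ⟨A0 ∩ C, B0 ∪ Cᶜ, tp_inter Z (fineT F) A0 C hA0 (hcl C hC.2),
      tp_union Z (fineT F) B0 Cᶜ hB0 (hcl _ hC.compl.2), ?_, ?_, ?_, ?_⟩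
    · obtain ⟨G, hG1, hG2, hG3⟩ := hloc z hz
      exact ⟨⟨G, ⟨hG1, hG3⟩, hG2⟩, hzC⟩
    · rintro z' ⟨⟨⟨G, ⟨_, hG⟩, hzG⟩, hzC'⟩, hz'⟩
      have h2 := hc2 z z' hz hz' (hG z' hzG hz').symm
      refine h1 z' (hCU hzC') fun m hm => ?_
      rw [abs_sub_comm]
      exact (h2 m (hm.trans (le_max_left _ _))).trans_lt hlt
    · intro z' hz'
      by_cases hC' : z' ∈ C
      · obtain ⟨G, hG1, hG2, hG3⟩ := hloc z' hz'
        by_cases hcc : c z' = c z
        · left
          exact ⟨⟨G, ⟨hG1, fun z'' h4 h5 => (hG3 z'' h4 h5).trans hcc⟩, hG2⟩, hC'⟩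
        · right
          left
          exact ⟨G, ⟨hG1, fun z'' h4 h5 h6 => hcc ((hG3 z'' h4 h5).symm.trans h6)⟩, hG2⟩
      · exact Or.inr (Or.inr hC')
    · rw [Set.eq_empty_iff_forall_notMem]
      rintro z' ⟨⟨⟨⟨G, ⟨_, hG⟩, hzG⟩, hzC'⟩, hB⟩, hz'⟩
      rcases hB with ⟨G', ⟨_, hG'⟩, hzG'⟩ | hB
      · exact hG' z' hzG' hz' (hG z' hzG hz')
      · exact hB hzC'
  · intro z hz O hO hzO
    obtain ⟨U, hU, M, δ, hδ, h1⟩ := (fine_nhds F z O).1 (tp_mem Z (fineT F) O z hO hzO)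
    obtain ⟨C, hC, hzC, hCU⟩ := hCB z U hU
    have hz1 : ∀ (l : Option ℕ) (q : ℚ), ∀ z' ∈ (⋃ n, {z | ∑' m, wof (e n).1 m * a m * F m z
        = ((e n).2 : ℝ)})ᶜ, ∑' m, wof l m * a m * F m z' ≠ (q : ℝ) := by
      intro l q z' hz' hq
      obtain ⟨n, hn⟩ := he (l, q)
      refine hz' ?_
      rw [Set.mem_iUnion]
      refine ⟨n, ?_⟩
      show ∑' m, wof (e n).1 m * a m * F m z' = ((e n).2 : ℝ)
      rw [hn]
      exact hq
    -- a uniform width
    have e2 : ∀ᶠ μ in 𝓝[>] (0 : ℝ), ∀ i : Fin (M + 1), 2 * μ ≤ a i * δ := by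
      rw [eventually_all]
      intro i
      have h5 : 0 < a i * δ / 2 := by have := ha0 i; positivity
      filter_upwards [Ioc_mem_nhdsGT h5] with μ hμ
      linarith [hμ.2]
    obtain ⟨μ, hμ1, hμ0⟩ := (e2.and self_mem_nhdsWithin).exists
    have hμ0' : (0 : ℝ) < μ := hμ0
    -- rational bounds
    have hq : ∀ l : Option ℕ, ∃ q q' : ℚ, (q : ℝ) < ∑' m, wof l m * a m * F m z ∧
        ∑' m, wof l m * a m * F m z < (q' : ℝ) ∧ (q' : ℝ) - q < μ := by
      intro l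
      obtain ⟨q, hq1, hq2⟩ := exists_rat_btwn (show ∑' m, wof l m * a m * F m z - μ / 2 <
        ∑' m, wof l m * a m * F m z by linarith)
      obtain ⟨q', hq1', hq2'⟩ := exists_rat_btwn (show ∑' m, wof l m * a m * F m z <
        ∑' m, wof l m * a m * F m z + μ / 2 by linarith)
      exact ⟨q, q', hq2, hq1', by linarith⟩
    choose q q' hq1 hq2 hq3 using hq
    let I : Finset (Option ℕ) := insert none ((Finset.range (M + 1)).image some)
    have hA : @IsOpen Z (fineT F) (⋂ l ∈ I, {z' | (q l : ℝ) < ∑' m, wof l m * a m * F m z' ∧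
        ∑' m, wof l m * a m * F m z' < (q' l : ℝ)}) := by
      refine tp_biInter Z (fineT F) I _ fun l _ => ?_
      exact tp_pre Z (fineT F) _ (hcont l) _ isOpen_Ioo
    have hB : @IsOpen Z (fineT F) (⋃ l ∈ I, {z' | ∑' m, wof l m * a m * F m z' < (q l : ℝ) ∨
        (q' l : ℝ) < ∑' m, wof l m * a m * F m z'}) := by
      refine tp_biUnion Z (fineT F) I _ fun l _ => ?_
      exact tp_pre Z (fineT F) _ (hcont l) _ (isOpen_Iio.union isOpen_Ioi)
    refine ⟨C ∩ ⋂ l ∈ I, {z' | (q l : ℝ) < ∑' m, wof l m * a m * F m z' ∧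
        ∑' m, wof l m * a m * F m z' < (q' l : ℝ)},
      Cᶜ ∪ ⋃ l ∈ I, {z' | ∑' m, wof l m * a m * F m z' < (q l : ℝ) ∨
        (q' l : ℝ) < ∑' m, wof l m * a m * F m z'},
      tp_inter Z (fineT F) _ _ (hcl C hC.2) hA,
      tp_union Z (fineT F) _ _ (hcl _ hC.compl.2) hB, ?_, ?_, ?_, ?_⟩
    · refine ⟨hzC, ?_⟩
      rw [Set.mem_iInter₂]
      exact fun l _ => ⟨hq1 l, hq2 l⟩
    · rintro z' ⟨⟨hzC', h2⟩, _⟩
      rw [Set.mem_iInter₂] at h2
      refine h1 z' (hCU hzC') fun m hm => ?_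
      have h3 := h2 none (Finset.mem_insert_self _ _)
      have h4 := h2 (some m) (Finset.mem_insert_of_mem (Finset.mem_image_of_mem _
        (Finset.mem_range.2 (by omega))))
      simp only [Set.mem_setOf_eq] at h3 h4
      have h5 := wof_diff F a hsum ha0 hF1 m z
      have h6 := wof_diff F a hsum ha0 hF1 m z'
      have h7 := hμ1 ⟨m, by omega⟩
      dsimp only at h7
      have h8 := hq1 none
      have h9 := hq2 none
      have h10 := hq3 none
      have h11 := hq1 (some m)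
      have h12 := hq2 (some m)
      have h13 := hq3 (some m)
      have h14 : |a m * (F m z' - F m z)| < a m * δ := by
        rw [mul_sub, ← h5, ← h6, abs_lt]
        constructor <;> linarith [h3.1, h3.2, h4.1, h4.2]
      rw [abs_mul, abs_of_pos (ha0 m)] at h14
      exact lt_of_mul_lt_mul_left h14 (ha0 m).le
    · intro z' hz'
      by_cases hC' : z' ∈ C
      · by_cases h2 : z' ∈ ⋃ l ∈ I, {z' | ∑' m, wof l m * a m * F m z' < (q l : ℝ) ∨
          (q' l : ℝ) < ∑' m, wof l m * a m * F m z'}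
        · exact Or.inr (Or.inr h2)
        · left
          refine ⟨hC', ?_⟩
          rw [Set.mem_iInter₂]
          intro l hl
          rw [Set.mem_iUnion₂] at h2
          push Not at h2
          have h3 := h2 l hl
          simp only [Set.mem_setOf_eq, not_or, not_lt] at h3
          exact ⟨lt_of_le_of_ne h3.1 (hz1 l _ z' hz').symm, lt_of_le_of_ne h3.2 (hz1 l _ z' hz')⟩
      · exact Or.inr (Or.inl hC')
    · rw [Set.eq_empty_iff_forall_notMem]
      rintro z' ⟨⟨⟨hzC', h2⟩, hB'⟩, _⟩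
      rcases hB' with hB' | hB'
      · exact hB' hzC'
      · rw [Set.mem_iUnion₂] at hB'
        obtain ⟨l, hl, h3⟩ := hB'
        rw [Set.mem_iInter₂] at h2
        have h4 := h2 l hl
        rcases h3 with h3 | h3
        · exact lt_asymm h3 h4.1
        · exact lt_asymm h3 h4.2

end Pool.Agent.H55.Cos
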