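import Pool.Agent.H55.Cos.Stmts

/-!
PTAM: all functions are tame and bounded by 1, also on powers.
-/

namespace Pool.Agent.H55.Cos

open Set Filter Topology

theorem tame_comp {Z Z' : Type} [TopologicalSpace Z] [TopologicalSpace Z'] {F : Z → ℝ} (hF : Tame F)
    {g : Z' → Z} (hg : Continuous g) : Tame (fun z => F (g z)) := by
  intro ε hε
  obtain ⟨V, O, h1, h2, h3, h4⟩ := hF ε hε
  refine ⟨V, fun i => g ⁻¹' (O i), fun i => (h1 i).preimage hg, fun i j hij =>
    (h2 i j hij).preimage g, fun i z hz z' hz' => h3 i _ hz _ hz', fun z hz => h4 _ hz⟩

theorem tame_const {Z : Type} [TopologicalSpace Z] (q : ℚ) : Tame (fun _ : Z => (q : ℝ)) := by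
  intro ε hε
  exact ⟨{q}, fun _ => ∅, fun _ => isClopen_empty, fun _ _ _ => by simp,
    fun i z hz => absurd hz (by simp), fun z _ => ⟨q, by simp, rfl⟩⟩

theorem cos_ptam (h : TTAMStmt) : PTAMStmt := by
  have hcan : ∀ x : Cant, |gg x| ≤ 1 := by
    intro x
    have := canon.f_mem x
    show |canon.f x| ≤ 1
    rw [abs_le]; constructor <;> linarith [this.1, this.2]
  refine ⟨?_, ?_⟩
  · intro i z
    match i with
    | none => simp [phi]
    | some (Sum.inl false) => exact hcan _
    | some (Sum.inl true) => exact hcan _
    | some (Sum.inr c) =>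
      show |fc c z| ≤ 1
      unfold fc
      split_ifs with hc
      · have := hc.choose.f_mem z
        rw [abs_le]; constructor <;> linarith [this.1, this.2]
      · simp
  · intro i r j
    have hj : Continuous (fun z : Fin r → XX => z j) := continuous_apply j
    match i with
    | none =>
      have := tame_const (Z := Fin r → XX) 1
      simpa [phi] using this
    | some (Sum.inl false) =>
      refine tame_comp (h _ canon) (g := fun z : Fin r → XX => xc (z j)) ?_
      unfold xc
      fun_prop
    | some (Sum.inl true) =>
      refine tame_comp (h _ canon) (g := fun z : Fin r → XX => yc (z j)) ?_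
      unfold yc
      fun_prop
    | some (Sum.inr c) =>
      have h1 : Tame (fc c) := by
        unfold fc
        split_ifs with hc
        · exact h _ _
        · have := tame_const (Z := XX) 0
          simpa using this
      exact tame_comp h1 hj

end Pool.Agent.H55.Cos
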