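import Pool.Agent.H55.Cos.Stmts

/-!
TTAM: tree functions are tame.
-/

namespace Pool.Agent.H55.Cos

open Set Filter Topology

/-- the rational value at a node -/
def valq : List ℕ → ℚ
  | [] => 1 / 2
  | (n :: s) => valq s + (-1) ^ n * (1 / 2) ^ (s.length + 2)

theorem valq_cast (s : List ℕ) : ((valq s : ℚ) : ℝ) = val s := by
  induction s with
  | nil => simp [valq, val]
  | cons n s ih => simp only [valq, val, ← ih]; push_cast; ring

theorem valq_finite (j : ℕ) : {q : ℚ | ∃ t : List ℕ, t.length = j ∧ valq t = q}.Finite := by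
  induction j with
  | zero =>
    refine (Set.finite_singleton (1 / 2 : ℚ)).subset ?_
    rintro q ⟨t, ht, rfl⟩
    rw [List.length_eq_zero_iff] at ht
    subst ht
    rfl
  | succ j ih =>
    refine ((ih.image (fun q => q + (1 / 2) ^ (j + 2))).union
      (ih.image (fun q => q - (1 / 2) ^ (j + 2)))).subset ?_
    rintro q ⟨t, ht, rfl⟩
    match t, ht with
    | (n :: s), ht =>
      have hs : s.length = j := by simpa using ht
      rcases Nat.even_or_odd n with hn | hn
      · left
        refine ⟨valq s, ⟨s, hs, rfl⟩, ?_⟩
        simp only [valq, hn.neg_one_pow, hs, one_mul]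
      · right
        refine ⟨valq s, ⟨s, hs, rfl⟩, ?_⟩
        simp only [valq, hn.neg_one_pow, hs]
        ring

theorem cos_ttam : TTAMStmt := by
  classical
  intro Y _ S ε hε
  obtain ⟨k, hk⟩ := exists_pow_lt_of_lt_one hε (by norm_num : (1 / 2 : ℝ) < 1)
  have hfin : (⋃ j ∈ Finset.range k, {q : ℚ | ∃ t : List ℕ, t.length = j ∧ valq t = q}).Finite :=
    Set.Finite.biUnion (Finset.finite_toSet _) (fun j _ => valq_finite j)
  let e := Denumerable.eqv (List ℕ)
  refine ⟨hfin.toFinset, fun i => if (e.symm i).length = k then S.C (e.symm i) else ∅, ?_, ?_, ?_, ?_⟩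
  · intro i
    dsimp only
    split_ifs
    · exact S.clopen _
    · exact isClopen_empty
  · intro i j hij
    rw [Set.disjoint_left]
    intro y hi hj
    dsimp only at hi hj
    split_ifs at hi hj with h1 h2
    · have := S.unique_addr (h1.trans h2.symm) hi hj
      exact hij (e.symm.injective this)
    · exact hj
    · exact hi
    · exact hi
  · intro i z hz z' hz'
    dsimp only at hz hz'
    split_ifs at hz hz' with h1
    · have h2 := S.f_close hz
      have h3 := S.f_close hz'
      rw [h1] at h2 h3
      have h4 : (1 / 2 : ℝ) ^ k = 2 * (1 / 2) ^ (k + 1) := by rw [pow_succ]; ring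
      have h5 : S.f z - S.f z' = (S.f z - val (e.symm i)) - (S.f z' - val (e.symm i)) := by ring
      rw [h5]
      refine (abs_sub _ _).trans ?_
      linarith
    · exact absurd hz (by simp)
  · intro z hz
    have h1 : ∀ n, z ∉ S.C (n :: S.addr z k) := by
      intro n hn
      have h2 := S.addr_length_of_cont ⟨n, hn⟩
      refine hz (e (S.addr z k)) ?_
      simp only [Equiv.symm_apply_apply, h2, if_true]
      exact S.addr_mem z k
    have h3 : (S.addr z k).length ≠ k := by
      intro h2
      refine hz (e (S.addr z k)) ?_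
      simp only [Equiv.symm_apply_apply, h2, if_true]
      exact S.addr_mem z k
    have h4 := S.addr_length_le z k
    refine ⟨valq (S.addr z k), ?_, ?_⟩
    · rw [Set.Finite.mem_toFinset]
      simp only [Finset.mem_range, Set.mem_iUnion]
      exact ⟨(S.addr z k).length, by omega, S.addr z k, rfl, rfl⟩
    · rw [valq_cast]
      exact S.f_eq (S.addr_mem z k) h1

end Pool.Agent.H55.Cos
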